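import Pool.Agent.H655.OS.Sph
import Pool.Agent.H655.OS.Line

/-!
MP_252c1e_lc, Q2: homeomorphism of open subsets of the `n`-sphere is Borel reducible to homeomorphism
of open subsets of the `m`-sphere if and only if `n = 1` or `m ≥ 2`.
-/

set_option autoImplicit false

open Set Filter Topology TopologicalSpace
open scoped MeasureTheory

namespace Pool.Agent.Results.MP_252c1e_lc.OpenSubsets

/-- The `n`-sphere. -/
abbrev Sph (n : ℕ) : Type := Metric.sphere (0 : EuclideanSpace ℝ (Fin (n + 1))) 1

/-- The codes of open subsets of the `n`-sphere: an open set is coded by its complement, a nonempty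
compact subset of the sphere. The hyperspace carries the topology of the Hausdorff metric. -/
abbrev OpenCode (n : ℕ) : Type := NonemptyCompacts (Sph n)

/-- The open subset of the sphere with the code `K`. -/
abbrev coded (n : ℕ) (K : OpenCode n) : Set (Sph n) := (K : Set (Sph n))ᶜ

/-- Homeomorphism of the coded open sets. -/
def Homeomorphic (n : ℕ) (K K' : OpenCode n) : Prop := Nonempty (coded n K ≃ₜ coded n K')

/-- Borel reducibility of the relation `R` on the space `X` to the relation `S` on the space `Y`, with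
respect to the Borel sets of the two spaces. -/
def BorelReducible {X Y : Type} [TopologicalSpace X] [TopologicalSpace Y] (R : X → X → Prop)
    (S : Y → Y → Prop) : Prop :=
  ∃ F : X → Y, Measurable[borel X, borel Y] F ∧ ∀ x x', R x x' ↔ S (F x) (F x')

open Pool.Agent.H655.OS Pool.Agent.H655.MC

theorem reduce (n m : ℕ) (hm : 2 ≤ m) : BorelReducible (Homeomorphic n) (Homeomorphic m) := by
  have : Nonempty (Sph n) := ⟨pole n⟩
  obtain ⟨θ, U, C, h1, h2, h3, h4⟩ := exists_charts (E := EuclideanSpace ℝ (Fin n)) (Sph n)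
  let P : Pool.Agent.TH227.TM.Fr (EE m) :=
    { e0 := EuclideanSpace.single ⟨0, by omega⟩ 1
      e1 := EuclideanSpace.single ⟨1, by omega⟩ 1
      h0 := by simp
      h1 := by simp
      h01 := by simp [EuclideanSpace.inner_single_left] }
  refine ⟨fun K => KR P (Pool.Agent.H655.TM.relC (codeK θ U C h1 K)), ?_, ?_⟩
  · have a1 := meas_codeK h1 h2
    have a2 := Pool.Agent.H655.TM.meas_relC (E₁ := EuclideanSpace ℝ (Fin n))
    have a3 := meas_KR P
    exact a3.comp (a2.comp a1)
  · intro K K'
    obtain ⟨f⟩ := codeK_homeo h1 h3 h4 K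
    obtain ⟨f'⟩ := codeK_homeo h1 h3 h4 K'
    have h5 : Homeomorphic n K K' ↔
        Nonempty ((codeK θ U C h1 K).Pts ≃ₜ (codeK θ U C h1 K').Pts) :=
      ⟨fun ⟨g⟩ => ⟨(f.trans g).trans f'.symm⟩, fun ⟨g⟩ => ⟨(f.symm.trans g).trans f'⟩⟩
    rw [h5, Pool.Agent.H655.TM.relC_iff]
    exact (KR_iff P _ _).symm

/-- The number of components of an open subset of the circle determines it. -/
theorem circle : ∃ c : OpenCode 1 → ℕ∞, ∀ K K', c K = c K' → Homeomorphic 1 K K' := by
  have key : ∀ K : OpenCode 1, ∃ V : Set ℝ, IsOpen V ∧ Bornology.IsBounded V ∧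
      Nonempty (coded 1 K ≃ₜ V) := by
    intro K
    obtain ⟨p, hp⟩ := K.nonempty
    set e := stereographic' 1 p with he
    have hs : e.source = {p}ᶜ := stereographic'_source p
    have hKs : coded 1 K ⊆ e.source := by
      rw [hs]
      intro x hx hxp
      exact hx (by rw [mem_singleton_iff.1 hxp]; exact hp)
    have ho : IsOpen (coded 1 K) := K.isCompact.isClosed.isOpen_compl
    have i1 : IsOpenEmbedding (inclusion hKs) :=
      IsOpenEmbedding.of_comp _ e.open_source.isOpenEmbedding_subtypeVal
        ho.isOpenEmbedding_subtypeVal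
    have i2 : IsOpenEmbedding (e.source.domRestrict e) := e.isOpenEmbedding_restrict
    let κ : EuclideanSpace ℝ (Fin 1) ≃ₜ ℝ :=
      (ContinuousLinearEquiv.ofFinrankEq (𝕜 := ℝ) (by simp)).toHomeomorph
    let β : ℝ ≃ₜ Metric.ball (0 : ℝ) 1 := Homeomorph.unitBall
    have i3 : IsOpenEmbedding (fun x => (β (κ x) : ℝ)) :=
      Metric.isOpen_ball.isOpenEmbedding_subtypeVal.comp
        (β.isOpenEmbedding.comp κ.isOpenEmbedding)
    have i4 := (i3.comp i2).comp i1
    refine ⟨range ((fun x => (β (κ x) : ℝ)) ∘ (e.source.domRestrict e) ∘ (inclusion hKs)),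
      i4.isOpen_range, ?_, ⟨i4.toIsEmbedding.toHomeomorph⟩⟩
    refine Metric.isBounded_ball.subset (s := range _) (t := Metric.ball (0 : ℝ) 1) ?_
    rintro _ ⟨x, rfl⟩
    exact (β _).2
  choose V hV hb hh using key
  refine ⟨fun K => ENat.card (Cps (V K)), ?_⟩
  intro K K' h
  have c1 := (Cps_countable (hV K)).to_subtype
  have c2 := (Cps_countable (hV K')).to_subtype
  obtain ⟨σ⟩ := equiv_of_card h
  obtain ⟨g⟩ := open_homeo (hV K) (hV K') (hb K) (hb K') σ
  obtain ⟨f⟩ := hh K
  obtain ⟨f'⟩ := hh K'
  exact ⟨(f.trans g).trans f'.symm⟩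

/-- Homeomorphism of open subsets of the `n`-sphere is Borel reducible to homeomorphism of open subsets
of the `m`-sphere if and only if `n = 1` or `m ≥ 2`, for all positive integers `n` and `m`. -/
theorem result (n m : ℕ) (hn : 1 ≤ n) (hm : 1 ≤ m) :
    BorelReducible (Homeomorphic n) (Homeomorphic m) ↔ (n = 1 ∨ 2 ≤ m) := by
  constructor
  · rintro ⟨F, _, hF⟩
    by_contra hcon
    rw [not_or] at hcon
    have hm1 : m = 1 := by omega
    have hn2 : 2 ≤ n := by omega
    subst hm1
    obtain ⟨c, hc⟩ := circle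
    let P : Pool.Agent.TH227.TM.Fr (EE n) :=
      { e0 := EuclideanSpace.single ⟨0, by omega⟩ 1
        e1 := EuclideanSpace.single ⟨1, by omega⟩ 1
        h0 := by simp
        h1 := by simp
        h01 := by simp [EuclideanSpace.inner_single_left] }
    have hinj : Function.Injective (fun A : Set ℕ => c (F (KR P (fun j _ _ => j ∈ A)))) := by
      intro A B hAB
      have h1 := (hF _ _).2 (hc _ _ hAB)
      obtain ⟨σ, hσ⟩ := (KR_iff P _ _).1 h1
      ext j
      exact hσ j 0 0
    have h2 : Countable (Set ℕ) := hinj.countable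
    obtain ⟨g, hg⟩ := exists_injective_nat (Set ℕ)
    exact Function.cantor_injective g hg
  · rintro (h | h)
    · subst h
      rcases Nat.lt_or_ge m 2 with h2 | h2
      · have hm1 : m = 1 := by omega
        subst hm1
        exact ⟨id, measurable_id, fun _ _ => Iff.rfl⟩
      · exact reduce 1 m h2
    · exact reduce n m h

end Pool.Agent.Results.MP_252c1e_lc.OpenSubsets
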